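import Pool.Agent.MP_3ba9a9_lc.Main
import Pool.Agent.MP_3ba9a9_lc.PTMain

/-!
# Lawn mowing with a bounded number of segments belongs to the class `∃ℝ`
-/

namespace Pool.Agent.Results.MP_3ba9a9_lc.BoundedSegments

open Pool.Agent.MP_3ba9a9_lc

/-- Given a polygon with holes (rational vertices, in binary), a length bound `k` (in binary) and a
bound `m` on the number of segments (in unary), deciding whether a polygonal curve with `m`
segments and length at most `k` passes within distance `1` of every point of the polygon belongs to
`∃ℝ`. -/
theorem result : InExistsR Instance.code Instance.Mowable :=
  ⟨sentence, computable_sentence, correct⟩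

end Pool.Agent.Results.MP_3ba9a9_lc.BoundedSegments
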