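import Pool.Agent.LawnInt.Exact
import Pool.Agent.LawnInt.Germ

/-!
# Lawn mowing is not semialgebraic in the coordinates, already for hexagons and length `3`
-/

namespace Pool.Agent.Results.MP_3ba9a9_lc.Integrality

open Filter Topology Pool.Agent.LawnZig Pool.Agent.LawnInt

/-- the rational hexagon with parameter `q` -/
def famQ (q : ℚ) : Fin 6 → Fin 2 → ℚ :=
  ![![-(5 / 2 - (2 * q / (1 + q ^ 2)) ^ 2 - q ^ 5 / 2),
      (2 * q / (1 + q ^ 2)) ^ 2 / ((1 - q ^ 2) / (1 + q ^ 2))],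
    ![-1, 1 / ((1 - q ^ 2) / (1 + q ^ 2))],
    ![1 / 2, 1 / ((1 - q ^ 2) / (1 + q ^ 2))],
    ![5 / 2 - (2 * q / (1 + q ^ 2)) ^ 2 - q ^ 5 / 2,
      -((2 * q / (1 + q ^ 2)) ^ 2 / ((1 - q ^ 2) / (1 + q ^ 2)))],
    ![1, -(1 / ((1 - q ^ 2) / (1 + q ^ 2)))],
    ![-(1 / 2), -(1 / ((1 - q ^ 2) / (1 + q ^ 2)))]]

lemma famQ_cast (q : ℚ) (i : Fin 6) (j : Fin 2) :
    ((famQ q i j : ℚ) : ℝ) = fam (su q) (cu q) ((q : ℝ) ^ 5) i j := by
  fin_cases i <;> fin_cases j <;> simp [famQ, fam, su, cu]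

/-- the coordinates are germs of rational functions -/
lemma rat0_fam (ij : Fin 6 × Fin 2) :
    Rat0 (fun u => fam (su u) (cu u) (u ^ 5) ij.1 ij.2) := by
  have hs : Rat0 su := by
    have h1 : Rat0 (fun u : ℝ => (1 + u ^ 2)⁻¹) := by
      refine Rat0.inv (a := 1 + Polynomial.X ^ 2) (b := 1) (by simp) (by simp) ?_
      filter_upwards with u
      simp
    have h2 := ((Rat0.const 2).mul Rat0.id).mul h1
    refine h2
  have hc : Rat0 cu := by
    have h1 : Rat0 (fun u : ℝ => (1 + u ^ 2)⁻¹) := by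
      refine Rat0.inv (a := 1 + Polynomial.X ^ 2) (b := 1) (by simp) (by simp) ?_
      filter_upwards with u
      simp
    have h2 := (Rat0.poly (1 - Polynomial.X ^ 2)).mul h1
    have e : (fun u : ℝ => (1 - Polynomial.X ^ 2 : Polynomial ℝ).eval u * (1 + u ^ 2)⁻¹) = cu := by
      funext u
      simp [cu, div_eq_mul_inv]
    rw [← e]; exact h2
  have hci : Rat0 (fun u => (cu u)⁻¹) := by
    refine Rat0.inv (a := 1 - Polynomial.X ^ 2) (b := 1 + Polynomial.X ^ 2) (by simp) (by simp) ?_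
    filter_upwards with u
    have : (1 + u ^ 2) ≠ 0 := by positivity
    simp only [cu, Polynomial.eval_add, Polynomial.eval_sub, Polynomial.eval_one,
      Polynomial.eval_pow, Polynomial.eval_X]
    field_simp
  have hA : Rat0 (fun u => 5 / 2 - su u ^ 2 - u ^ 5 / 2) := by
    have h1 := ((Rat0.const (5 / 2)).add (hs.pow 2).neg).add
      (((Rat0.id.pow 5).mul (Rat0.const (1 / 2))).neg)
    have e : (fun u => 5 / 2 + -su u ^ 2 + -(u ^ 5 * (1 / 2)))
        = (fun u => 5 / 2 - su u ^ 2 - u ^ 5 / 2) := by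
      funext u; ring
    rw [← e]; exact h1
  have hM : Rat0 (fun u => su u ^ 2 / cu u) := (hs.pow 2).mul hci
  have hH : Rat0 (fun u => 1 / cu u) := (Rat0.const 1).mul hci
  obtain ⟨i, j⟩ := ij
  fin_cases i <;> fin_cases j
  exacts [hA.neg, hM, Rat0.const (-1), hH, Rat0.const (1 / 2), hH, hA, hM.neg, Rat0.const 1,
    hH.neg, Rat0.const (-(1 / 2)), hH.neg]

/-- the coordinates are continuous at `0` -/
lemma fam_tendsto (i : Fin 6) (j : Fin 2) :
    Tendsto (fun u => fam (su u) (cu u) (u ^ 5) i j) (𝓝 (0 : ℝ)) (𝓝 (fam 0 1 0 i j)) := by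
  have hs : Tendsto su (𝓝 (0 : ℝ)) (𝓝 0) := by
    have := su_cont.tendsto 0
    simpa [su] using this
  have hc : Tendsto cu (𝓝 (0 : ℝ)) (𝓝 1) := by
    have := cu_cont.tendsto 0
    simpa [cu] using this
  have h5 : Tendsto (fun u : ℝ => u ^ 5) (𝓝 (0 : ℝ)) (𝓝 0) := by
    have := (continuous_pow 5 : Continuous fun u : ℝ => u ^ 5).tendsto 0
    simpa using this
  have hA : Tendsto (fun u => 5 / 2 - su u ^ 2 - u ^ 5 / 2) (𝓝 (0 : ℝ))
      (𝓝 (5 / 2 - 0 ^ 2 - 0 / 2)) :=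
    (tendsto_const_nhds.sub (hs.pow 2)).sub (h5.div_const 2)
  have hM : Tendsto (fun u => su u ^ 2 / cu u) (𝓝 (0 : ℝ)) (𝓝 (0 ^ 2 / 1)) :=
    (hs.pow 2).div hc one_ne_zero
  have hH : Tendsto (fun u => 1 / cu u) (𝓝 (0 : ℝ)) (𝓝 (1 / 1)) :=
    tendsto_const_nhds.div hc one_ne_zero
  fin_cases i <;> fin_cases j
  exacts [hA.neg, hM, tendsto_const_nhds, hH, tendsto_const_nhds, hH, hA, hM.neg,
    tendsto_const_nhds, hH.neg, tendsto_const_nhds, hH.neg]

/-- (1) For `0 < s < 1/100` the convex hexagon `fam s √(1-s²) 0` can be mown by a polygonal curve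
of length at most `3` if and only if `(2k+1) s = 1 - s²` for some natural number `k`.
(2) For every semialgebraic set `S` of six-tuples of points and every `ε > 0` there is a strictly
convex hexagon with rational vertices, within `ε` of the hexagon `fam 0 1 0`, for which membership
in `S` is not equivalent to being mowable by a polygonal curve of length at most `3`. -/
theorem result :
    (∀ s : ℝ, 0 < s → s < 1 / 100 →
      (Mowable (hull (fam s (Real.sqrt (1 - s ^ 2)) 0)) ↔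
        ∃ k : ℕ, (2 * k + 1) * s = 1 - s ^ 2)) ∧
    ∀ S : Set (Fin 6 × Fin 2 → ℝ), Semialgebraic S → ∀ ε : ℝ, 0 < ε →
      ∃ q : Fin 6 → Fin 2 → ℚ, ConvexHexagon (fun i j => (q i j : ℝ)) ∧
        (∀ i j, |(q i j : ℝ) - fam 0 1 0 i j| < ε) ∧
        ¬ ((fun ij => (q ij.1 ij.2 : ℝ)) ∈ S ↔ Mowable (hull fun i j => (q i j : ℝ))) := by
  constructor
  · intro s hs0 hs
    have hs2 : s ^ 2 < 1 := by
      have : s ^ 2 < (1 / 100) ^ 2 := pow_lt_pow_left₀ hs hs0.le (by norm_num)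
      linarith
    have hc : 0 < Real.sqrt (1 - s ^ 2) := Real.sqrt_pos.2 (by linarith)
    have hsc : s ^ 2 + Real.sqrt (1 - s ^ 2) ^ 2 = 1 := by
      rw [Real.sq_sqrt (by linarith)]; ring
    exact ⟨integral hs0 hs hc hsc, fun ⟨k, hk⟩ => mowable_integral hs0 hs hc hsc k hk⟩
  · intro S hS ε hε
    -- closeness to the limit hexagon
    have hclose : ∀ᶠ u in 𝓝[>] (0 : ℝ), ∀ i j,
        |fam (su u) (cu u) (u ^ 5) i j - fam 0 1 0 i j| < ε := by
      rw [Filter.eventually_all]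
      intro i
      rw [Filter.eventually_all]
      intro j
      have h := (Metric.tendsto_nhds.1 (fam_tendsto i j)) ε hε
      have h' := h.filter_mono (nhdsWithin_le_nhds (s := Set.Ioi 0))
      filter_upwards [h'] with u hu
      rwa [Real.dist_eq] at hu
    have hcast : ∀ q : ℚ, (fun i j => ((famQ q i j : ℚ) : ℝ))
        = fam (su q) (cu q) ((q : ℝ) ^ 5) := by
      intro q
      funext i j
      exact famQ_cast q i j
    have hconv : ∀ q : ℚ, 0 < (q : ℝ) → (q : ℝ) < 1 / 200 →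
        ConvexHexagon (fun i j => ((famQ q i j : ℚ) : ℝ)) := by
      intro q h1 h2
      rw [hcast]
      exact fam_convex (su_pos h1) (su_lt h1 h2) (cu_pos h1 (by linarith)) (su_cu _)
        (by positivity) (margin' h1 h2)
    have hmem : ∀ q : ℚ, (fun ij : Fin 6 × Fin 2 => ((famQ q ij.1 ij.2 : ℚ) : ℝ))
        = fun ij => fam (su q) (cu q) ((q : ℝ) ^ 5) ij.1 ij.2 := by
      intro q
      funext ij
      exact famQ_cast q ij.1 ij.2
    rcases hS.germ (F := fun u ij => fam (su u) (cu u) (u ^ 5) ij.1 ij.2) rat0_fam with h | h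
    · obtain ⟨e, he, hP⟩ := mem_nhdsGT_iff_exists_Ioo_subset.1 (h.and hclose)
      obtain ⟨q, h1, h2, h3, h4⟩ := exists_no e he
      obtain ⟨h5, h6⟩ := hP ⟨h1, h2⟩
      refine ⟨famQ q, hconv q h1 h3, fun i j => ?_, ?_⟩
      · rw [famQ_cast]; exact h6 i j
      · rw [hcast, hmem]
        intro hiff
        exact h4 (hiff.1 h5)
    · obtain ⟨e, he, hP⟩ := mem_nhdsGT_iff_exists_Ioo_subset.1 (h.and hclose)
      obtain ⟨q, h1, h2, h3, h4⟩ := exists_yes e he
      obtain ⟨h5, h6⟩ := hP ⟨h1, h2⟩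
      refine ⟨famQ q, hconv q h1 h3, fun i j => ?_, ?_⟩
      · rw [famQ_cast]; exact h6 i j
      · rw [hcast, hmem]
        intro hiff
        exact h5 (hiff.2 h4)

end Pool.Agent.Results.MP_3ba9a9_lc.Integrality
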