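import Pool.Agent.LawnZig.Upper
import Pool.Agent.LawnZig.Lower

/-!
# Mowing a convex hexagon of bounded size within length `3` can need exponentially many segments
-/

namespace Pool.Agent.Results.MP_3ba9a9_lc.ManySegments

open Pool.Agent.LawnZig

/-- For every `N ≥ 33`, the convex hexagon with vertices `(±(5/2 - 528/N²), 0)` and
`(±1/2, ±(1 + 8/N²))` is mown by a polygonal curve of length at most `3` with `2 N + 4` segments,
but every polygonal curve of length at most `3` that mows it has `m` segments with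
`1500 (m + 2)² > N`. -/
theorem result (N : ℕ) (hN : 33 ≤ N) :
    (∃ v : ℕ → ℂ, Mows (hexagon N) (2 * N + 4) v ∧ len (2 * N + 4) v ≤ 3) ∧
      ∀ (m : ℕ) (v : ℕ → ℂ), Mows (hexagon N) m v → len m v ≤ 3 → N < 1500 * (m + 2) ^ 2 := by
  refine ⟨⟨zig N, zig_mows N hN, zig_len N hN⟩, fun m v hm hl => ?_⟩
  by_contra hc
  exact lower N m (not_lt.1 hc) v hm hl

end Pool.Agent.Results.MP_3ba9a9_lc.ManySegments
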